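import Mathlib
import Pool.Agent.R94.LS.Stm

set_option autoImplicit false

/-!
The crossing lemma for straight-line graphs (`Pool.Agent.R94.LS.StmtA`).
-/

namespace Pool.Agent.R613.LSA

open Pool.Agent.R94.LS Filter Topology

section
variable {ι : Type*} (x y : ι → ℝ)

/-- slope -/
noncomputable def sl (e : ι × ι) : ℝ := (y e.2 - y e.1) / (x e.2 - x e.1)

lemma ht_sub (e : ι × ι) (s t : ℝ) : ht x y e s - ht x y e t = sl x y e * (s - t) := by
  unfold ht sl; ring

lemma ht_left (e : ι × ι) : ht x y e (x e.1) = y e.1 := by simp [ht]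

lemma ht_right (e : ι × ι) (h : x e.1 < x e.2) : ht x y e (x e.2) = y e.2 := by
  have h' : x e.2 - x e.1 ≠ 0 := by linarith
  unfold ht
  rw [div_mul_cancel₀ _ h']
  ring

lemma ht_cont (e : ι × ι) : Continuous (ht x y e) := by
  unfold ht; fun_prop

/-- A plane straight-line graph. -/
structure Pl (V : Finset ι) (E : Finset (ι × ι)) : Prop where
  inj : Function.Injective x
  lt : ∀ e ∈ E, x e.1 < x e.2
  sub : ∀ e ∈ E, e.1 ∈ V ∧ e.2 ∈ V
  nov : ∀ e ∈ E, ∀ w : ι, x e.1 < x w → x w < x e.2 → y w ≠ ht x y e (x w)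
  ncr : ∀ e ∈ E, ∀ f ∈ E, ¬ Crs x y e f

variable {x y}
variable {V : Finset ι} {E : Finset (ι × ι)}

lemma stay (H : Pl x y V E) {e f : ι × ι} (he : e ∈ E) (hf : f ∈ E) {s t : ℝ}
    (h1 : x e.1 ≤ s) (h2 : x f.1 ≤ s) (h3 : t ≤ x e.2) (h4 : t ≤ x f.2) (hst : s < t)
    (hs : ht x y e s < ht x y f s) : ht x y e t ≤ ht x y f t := by
  by_contra hc
  push Not at hc
  have hcont : ContinuousOn (fun r => ht x y f r - ht x y e r) (Set.Icc s t) :=
    ((ht_cont x y f).sub (ht_cont x y e)).continuousOn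
  have h := intermediate_value_Ioo' hst.le hcont
  have h0 : (0 : ℝ) ∈ Set.Ioo (ht x y f t - ht x y e t) (ht x y f s - ht x y e s) :=
    ⟨by linarith, by linarith⟩
  obtain ⟨r, hr, hr0⟩ := h h0
  refine H.ncr e he f hf ⟨?_, r, ?_, ?_, ?_, ?_, ?_⟩
  · rintro rfl; exact lt_irrefl _ hs
  · linarith [hr.1]
  · linarith [hr.2]
  · linarith [hr.1]
  · linarith [hr.2]
  · simp only at hr0; linarith

lemma core (H : Pl x y V E) {e e' f' : ι × ι} (he : e ∈ E) (he' : e' ∈ E) (hf' : f' ∈ E)
    {t : ℝ} (h1 : x e.1 ≤ t) (h2 : t < x e.2) (h3 : x e'.1 ≤ t) (h4 : t < x e'.2)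
    (h5 : x f'.1 ≤ t) (h6 : f'.2 = e'.2) (h7 : ht x y f' t < ht x y e t)
    (h8 : ht x y e t < ht x y e' t)
    (hgap : ∀ v ∈ V, t < x v → x v < x e'.2 → ht x y f' (x v) ≤ y v → y v ≤ ht x y e' (x v) →
      False)
    (himm : ∀ g ∈ E, g.2 = e'.2 → sl x y e' < sl x y g → sl x y f' ≤ sl x y g) : False := by
  have r1 := ht_right x y e (H.lt e he)
  have r2 := ht_right x y e' (H.lt e' he')
  have r3 := ht_right x y f' (H.lt f' hf')
  rw [h6] at r3
  rcases lt_trichotomy (x e.2) (x e'.2) with h | h | h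
  · refine hgap e.2 (H.sub e he).2 h2 h ?_ ?_
    · have := stay H hf' he h5 h1 (t := x e.2) (by rw [h6]; exact h.le) le_rfl h2 h7
      linarith
    · have := stay H he he' h1 h3 (t := x e.2) le_rfl h.le h2 h8
      linarith
  · have hv : e.2 = e'.2 := H.inj h
    rw [hv] at r1
    have a1 := ht_sub x y e (x e'.2) t
    have a2 := ht_sub x y e' (x e'.2) t
    have a3 := ht_sub x y f' (x e'.2) t
    have b1 : sl x y e' < sl x y e := by
      by_contra hc
      push Not at hc
      have : sl x y e * (x e'.2 - t) ≤ sl x y e' * (x e'.2 - t) :=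
        mul_le_mul_of_nonneg_right hc (by linarith)
      linarith
    have b2 := himm e he hv b1
    have : sl x y f' * (x e'.2 - t) ≤ sl x y e * (x e'.2 - t) :=
      mul_le_mul_of_nonneg_right b2 (by linarith)
    linarith
  · have c1 := stay H hf' he h5 h1 (t := x e'.2) (by rw [h6]) h.le h4 h7
    have c2 := stay H he he' h1 h3 (t := x e'.2) h.le le_rfl h4 h8
    exact H.nov e he e'.2 (by linarith) h (by linarith)

lemma slope_inj (H : Pl x y V E) {e f : ι × ι} (he : e ∈ E) (hf : f ∈ E)
    (h2 : e.2 = f.2) (hs : sl x y e = sl x y f) : e = f := by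
  by_contra hne
  have l1 := H.lt e he
  have l2 := H.lt f hf
  have r1 := ht_right x y e l1
  have r2 := ht_right x y f l2
  rw [← h2] at r2 l2
  obtain ⟨t, ht1, ht2⟩ := exists_between (max_lt l1 l2)
  refine H.ncr e he f hf ⟨hne, t, ?_, ht2, ?_, ?_, ?_⟩
  · exact lt_of_le_of_lt (le_max_left _ _) ht1
  · exact lt_of_le_of_lt (le_max_right _ _) ht1
  · rw [← h2]; exact ht2
  · have a1 := ht_sub x y e (x e.2) t
    have a2 := ht_sub x y f (x e.2) t
    rw [hs] at a1
    linarith

lemma slope_inj' (H : Pl x y V E) {e f : ι × ι} (he : e ∈ E) (hf : f ∈ E)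
    (h2 : e.1 = f.1) (hs : sl x y e = sl x y f) : e = f := by
  by_contra hne
  have l1 := H.lt e he
  have l2 := H.lt f hf
  have r1 := ht_left x y e
  have r2 := ht_left x y f
  rw [← h2] at r2 l2
  obtain ⟨t, ht1, ht2⟩ := exists_between (lt_min l1 l2)
  refine H.ncr e he f hf ⟨hne, t, ht1, ?_, ?_, ?_, ?_⟩
  · exact lt_of_lt_of_le ht2 (min_le_left _ _)
  · rw [← h2]; exact ht1
  · exact lt_of_lt_of_le ht2 (min_le_right _ _)
  · have a1 := ht_sub x y e (x e.1) t
    have a2 := ht_sub x y f (x e.1) t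
    rw [hs] at a1
    linarith

/-- the partner edge and the charged vertex -/
def Wit (x y : ι → ℝ) (V : Finset ι) (E : Finset (ι × ι)) (e f : ι × ι) (w : ι) : Prop :=
  f ∈ E ∧ w ∈ V ∧ f.2 = e.2 ∧ sl x y e < sl x y f ∧
    (∀ g ∈ E, g.2 = e.2 → sl x y e < sl x y g → sl x y f ≤ sl x y g) ∧
    x e.1 ≤ x w ∧ x f.1 ≤ x w ∧ x w < x e.2 ∧ ht x y f (x w) ≤ y w ∧ y w ≤ ht x y e (x w) ∧
    (∀ v ∈ V, x w < x v → x v < x e.2 → ht x y f (x v) ≤ y v → y v ≤ ht x y e (x v) → False)

lemma exists_wit (H : Pl x y V E) {e : ι × ι} (he : e ∈ E)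
    (hl : ¬ ∀ g ∈ E, g.2 = e.2 → sl x y g ≤ sl x y e) : ∃ f w, Wit x y V E e f w := by
  classical
  push Not at hl
  obtain ⟨g0, hg0, hg1, hg2⟩ := hl
  obtain ⟨f, hf, hfm⟩ := Finset.exists_min_image
    (E.filter fun g => g.2 = e.2 ∧ sl x y e < sl x y g) (fun g => sl x y g)
    ⟨g0, by simp [hg0, hg1, hg2]⟩
  simp only [Finset.mem_filter] at hf hfm
  obtain ⟨hfE, hf2, hfs⟩ := hf
  have r1 := ht_right x y e (H.lt e he)
  have r2 := ht_right x y f (H.lt f hfE)
  rw [hf2] at r2
  have below : ∀ t, t ≤ x e.2 → ht x y f t ≤ ht x y e t := by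
    intro t hte
    have a1 := ht_sub x y e (x e.2) t
    have a2 := ht_sub x y f (x e.2) t
    have : sl x y e * (x e.2 - t) ≤ sl x y f * (x e.2 - t) :=
      mul_le_mul_of_nonneg_right hfs.le (by linarith)
    linarith
  have hne : (V.filter fun w => x e.1 ≤ x w ∧ x f.1 ≤ x w ∧ x w < x e.2 ∧
      ht x y f (x w) ≤ y w ∧ y w ≤ ht x y e (x w)).Nonempty := by
    rcases le_total (x e.1) (x f.1) with h | h
    · refine ⟨f.1, ?_⟩
      simp only [Finset.mem_filter]
      have hlt := H.lt f hfE
      rw [hf2] at hlt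
      refine ⟨(H.sub f hfE).1, h, le_rfl, hlt, ?_, ?_⟩
      · rw [ht_left]
      · have := below (x f.1) hlt.le
        rw [ht_left] at this
        exact this
    · refine ⟨e.1, ?_⟩
      simp only [Finset.mem_filter]
      have hlt := H.lt e he
      refine ⟨(H.sub e he).1, le_rfl, h, hlt, ?_, ?_⟩
      · have := below (x e.1) hlt.le
        rw [ht_left] at this
        exact this
      · rw [ht_left]
  obtain ⟨w, hw, hwm⟩ := Finset.exists_max_image _ (fun w => x w) hne
  simp only [Finset.mem_filter] at hw hwm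
  obtain ⟨hwV, w1, w2, w3, w4, w5⟩ := hw
  refine ⟨f, w, hfE, hwV, hf2, hfs, fun g hg h1 h2 => hfm g ⟨hg, h1, h2⟩, w1, w2, w3, w4, w5, ?_⟩
  intro v hv h1 h2 h3 h4
  have := hwm v ⟨hv, by linarith, by linarith, h2, h3, h4⟩
  linarith

lemma core2 (H : Pl x y V E) {e e' f' : ι × ι} {w : ι} (he : e ∈ E) (he' : e' ∈ E)
    (hW : Wit x y V E e' f' w) (h1 : x e.1 ≤ x w) (h2 : x w < x e.2)
    (h3 : ht x y f' (x w) < ht x y e (x w))
    (h4 : ∀ᶠ t in 𝓝[>] (x w), ht x y e t < ht x y e' t) : False := by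
  obtain ⟨hf', hwV, hf2, hfs, himm, w1, w2, w3, w4, w5, hgap⟩ := hW
  have e1 : ∀ᶠ t in 𝓝[>] (x w), t < x e.2 :=
    mem_nhdsWithin_of_mem_nhds (Iio_mem_nhds h2)
  have e2 : ∀ᶠ t in 𝓝[>] (x w), t < x e'.2 :=
    mem_nhdsWithin_of_mem_nhds (Iio_mem_nhds w3)
  have e3 : ∀ᶠ t in 𝓝[>] (x w), ht x y f' t < ht x y e t := by
    apply eventually_nhdsWithin_of_eventually_nhds
    exact (ht_cont x y f').continuousAt.eventually_lt (ht_cont x y e).continuousAt h3
  have e4 : ∀ᶠ t in 𝓝[>] (x w), x w < t := eventually_mem_nhdsWithin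
  obtain ⟨t, t1, t2, t3, t4, t5⟩ := (e1.and (e2.and (e3.and (e4.and h4)))).exists
  refine core H he he' hf' (t := t) (by linarith) t1 (by linarith) t2 (by linarith) hf2 t3 t5
    (fun v hv a b c d => hgap v hv (by linarith) b c d) himm

/-- Part (i): a plane straight-line graph has at most `3 n` edges. -/
lemma plane_bound (H : Pl x y V E) : E.card ≤ 3 * V.card := by
  classical
  have hex : ∀ e : ι × ι, ∃ fw : (ι × ι) × ι, e ∈ E →
      (¬ ∀ g ∈ E, g.2 = e.2 → sl x y g ≤ sl x y e) → Wit x y V E e fw.1 fw.2 := by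
    intro e
    by_cases h : e ∈ E ∧ (¬ ∀ g ∈ E, g.2 = e.2 → sl x y g ≤ sl x y e)
    · obtain ⟨f, w, hw⟩ := exists_wit H h.1 h.2
      exact ⟨(f, w), fun _ _ => hw⟩
    · refine ⟨(e, e.1), fun h1 h2 => (h ⟨h1, h2⟩).elim⟩
  choose fw hfw using hex
  set low : ι × ι → Prop := fun e => ∀ g ∈ E, g.2 = e.2 → sl x y g ≤ sl x y e with hlow
  set φ : ι × ι → ι × Fin 3 := fun e =>
    if low e then (e.2, 0) else if (fw e).2 = e.1 then ((fw e).2, 1) else ((fw e).2, 2) with hφ
  have hmaps : ∀ e ∈ E, φ e ∈ V ×ˢ (Finset.univ : Finset (Fin 3)) := by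
    intro e he
    simp only [hφ]
    split_ifs with h1 h2
    · simp [(H.sub e he).2]
    · simp [(hfw e he h1).2.1]
    · simp [(hfw e he h1).2.1]
  have key : ∀ e ∈ E, ∀ e' ∈ E, ¬ low e → ¬ low e' → (fw e).2 = (fw e').2 →
      (((fw e).2 = e.1 ∧ (fw e').2 = e'.1) ∨ ((fw e).2 ≠ e.1 ∧ (fw e').2 ≠ e'.1)) →
      e = e' := by
    -- the two kinds
    have main : ∀ e ∈ E, ∀ e' ∈ E, ¬ low e → ¬ low e' → ∀ w, (fw e).2 = w → (fw e').2 = w →
        ((w = e.1 ∧ w = e'.1 ∧ sl x y e < sl x y e') ∨
          (w ≠ e.1 ∧ w ≠ e'.1 ∧ ht x y e (x w) < ht x y e' (x w))) → False := by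
      intro e he e' he' hl hl' w hw hw' hcase
      have W := hfw e he hl
      have W' := hfw e' he' hl'
      rw [hw] at W
      rw [hw'] at W'
      have Wc := W
      have Wc' := W'
      obtain ⟨hf, hwV, hf2, hfs, himm, w1, w2, w3, w4, w5, hgap⟩ := W
      obtain ⟨hf', -, hf2', hfs', himm', w1', w2', w3', w4', w5', hgap'⟩ := W'
      rcases hcase with ⟨c1, c2, c3⟩ | ⟨c1, c2, c3⟩
      · refine core2 H he he' Wc' w1 w3 ?_ ?_
        · have h0 : ht x y e (x w) = y w := by rw [c1, ht_left]
          rw [h0]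
          refine lt_of_le_of_ne w4' ?_
          intro heq
          rcases eq_or_lt_of_le w2' with h | h
          · have h1 : (fw e').1.1 = w := H.inj h
            have : (fw e').1 = e' := Prod.ext (h1.trans c2) hf2'
            rw [this] at hfs'
            exact lt_irrefl _ hfs'
          · exact H.nov _ hf' w h (by rw [hf2']; exact w3') heq.symm
        · have e4 : ∀ᶠ t in 𝓝[>] (x w), x w < t := eventually_mem_nhdsWithin
          filter_upwards [e4] with t htt
          have a1 := ht_sub x y e t (x w)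
          have a2 := ht_sub x y e' t (x w)
          have b1 : ht x y e (x w) = y w := by rw [c1, ht_left]
          have b2 : ht x y e' (x w) = y w := by rw [c2, ht_left]
          have : sl x y e * (t - x w) < sl x y e' * (t - x w) :=
            mul_lt_mul_of_pos_right c3 (by linarith)
          linarith
      · have w1s : x e.1 < x w := lt_of_le_of_ne w1 (fun h => c1 (H.inj h).symm)
        have hne := H.nov e he w w1s w3
        refine core2 H he he' Wc' w1 w3 (lt_of_le_of_lt w4' (lt_of_le_of_ne w5 hne)) ?_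
        apply eventually_nhdsWithin_of_eventually_nhds
        exact (ht_cont x y e).continuousAt.eventually_lt (ht_cont x y e').continuousAt c3
    intro e he e' he' hl hl' hww hcase
    by_contra hne
    rcases hcase with ⟨c1, c2⟩ | ⟨c1, c2⟩
    · rcases lt_trichotomy (sl x y e) (sl x y e') with h | h | h
      · exact main e he e' he' hl hl' _ rfl hww.symm (Or.inl ⟨c1, hww.trans c2, h⟩)
      · exact hne (slope_inj' H he he' (c1.symm.trans (hww.trans c2)) h)
      · exact main e' he' e he hl' hl _ rfl hww (Or.inl ⟨c2, hww.symm.trans c1, h⟩)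
    · have W := hfw e he hl
      have W' := hfw e' he' hl'
      obtain ⟨hf, hwV, hf2, hfs, himm, w1, w2, w3, w4, w5, hgap⟩ := W
      obtain ⟨hf', -, hf2', hfs', himm', w1', w2', w3', w4', w5', hgap'⟩ := W'
      rw [← hww] at c2 w1' w3'
      have w1s : x e.1 < x (fw e).2 := lt_of_le_of_ne w1 (fun h => c1 (H.inj h).symm)
      have w1s' : x e'.1 < x (fw e).2 := lt_of_le_of_ne w1' (fun h => c2 (H.inj h).symm)
      rcases lt_trichotomy (ht x y e (x (fw e).2)) (ht x y e' (x (fw e).2)) with h | h | h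
      · exact main e he e' he' hl hl' _ rfl hww.symm (Or.inr ⟨c1, c2, h⟩)
      · exact H.ncr e he e' he' ⟨hne, _, w1s, w3, w1s', w3', h⟩
      · exact main e' he' e he hl' hl _ hww.symm rfl (Or.inr ⟨c2, c1, h⟩)
  have hinj : Set.InjOn φ (E : Set (ι × ι)) := by
    intro e he e' he' hee
    simp only [Finset.mem_coe] at he he'
    simp only [hφ] at hee
    split_ifs at hee with h1 h2 h3 h4 h5 h6 h7 <;> simp only [Prod.mk.injEq] at hee
    · exact slope_inj H he he' hee.1 (le_antisymm (h2 e he hee.1) (h1 e' he' hee.1.symm))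
    all_goals first
      | (exfalso; exact absurd hee.2 (by decide))
      | skip
    · exact key e he e' he' h1 (by assumption) hee.1 (Or.inl ⟨by assumption, by assumption⟩)
    · exact key e he e' he' h1 (by assumption) hee.1 (Or.inr ⟨by assumption, by assumption⟩)
  have := Finset.card_le_card_of_injOn φ hmaps hinj
  rw [Finset.card_product, Finset.card_univ, Fintype.card_fin] at this
  omega

/-- the ordered crossing pairs -/
noncomputable def XP (x y : ι → ℝ) (E : Finset (ι × ι)) : Finset ((ι × ι) × (ι × ι)) := by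
  classical
  exact (E ×ˢ E).filter fun p => Crs x y p.1 p.2

/-- Part (ii). -/
lemma weak_bound (hinj : Function.Injective x) (V : Finset ι) :
    ∀ (m : ℕ) (E : Finset (ι × ι)), E.card = m → (∀ e ∈ E, x e.1 < x e.2) →
      (∀ e ∈ E, e.1 ∈ V ∧ e.2 ∈ V) →
      (∀ e ∈ E, ∀ w : ι, x e.1 < x w → x w < x e.2 → y w ≠ ht x y e (x w)) →
      E.card ≤ 3 * V.card + (XP x y E).card := by
  classical
  intro m
  induction m with
  | zero =>
    intro E hE _ _ _
    omega
  | succ m ih =>
    intro E hE h1 h2 h3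
    by_cases hX : (XP x y E).Nonempty
    · obtain ⟨⟨e, f⟩, hef⟩ := hX
      have hef' := hef
      simp only [XP, Finset.mem_filter, Finset.mem_product] at hef
      obtain ⟨⟨he, hf⟩, hc⟩ := hef
      have hcard : (E.erase e).card = m := by
        rw [Finset.card_erase_of_mem he, hE]; rfl
      have hsub : ∀ g ∈ E.erase e, g ∈ E := fun g hg => Finset.mem_of_mem_erase hg
      have h := ih (E.erase e) hcard (fun g hg => h1 g (hsub g hg)) (fun g hg => h2 g (hsub g hg))
        (fun g hg => h3 g (hsub g hg))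
      have hss : (XP x y (E.erase e)).card < (XP x y E).card := by
        apply Finset.card_lt_card
        refine ⟨?_, ?_⟩
        · intro p hp
          simp only [XP, Finset.mem_filter, Finset.mem_product] at hp ⊢
          exact ⟨⟨hsub _ hp.1.1, hsub _ hp.1.2⟩, hp.2⟩
        · intro hss
          have := hss hef'
          simp only [XP, Finset.mem_filter, Finset.mem_product, Finset.mem_erase] at this
          exact this.1.1.1 rfl
      omega
    · have H : Pl x y V E := by
        refine ⟨hinj, h1, h2, h3, ?_⟩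
        intro e he f hf hc
        apply hX
        refine ⟨(e, f), ?_⟩
        simp only [XP, Finset.mem_filter, Finset.mem_product]
        exact ⟨⟨he, hf⟩, hc⟩
      have := plane_bound H
      omega

/-- crossing edges have four distinct end points. -/
lemma crs_distinct (hinj : Function.Injective x) (h1 : ∀ e ∈ E, x e.1 < x e.2)
    (h3 : ∀ e ∈ E, ∀ w : ι, x e.1 < x w → x w < x e.2 → y w ≠ ht x y e (x w))
    {e f : ι × ι} (he : e ∈ E) (hf : f ∈ E) (hc : Crs x y e f) :
    e.1 ≠ f.1 ∧ e.2 ≠ f.2 ∧ e.1 ≠ f.2 ∧ e.2 ≠ f.1 := by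
  obtain ⟨hne, t, t1, t2, t3, t4, t5⟩ := hc
  have le := h1 e he
  have lf := h1 f hf
  refine ⟨?_, ?_, ?_, ?_⟩
  · intro h
    have a1 := ht_sub x y e t (x e.1)
    have a2 := ht_sub x y f t (x e.1)
    have b1 := ht_left x y e
    have b2 := ht_left x y f
    rw [← h] at b2
    have hs : sl x y e = sl x y f := by
      have : sl x y e * (t - x e.1) = sl x y f * (t - x e.1) := by linarith
      exact mul_right_cancel₀ (by linarith) this
    have hall : ∀ r, ht x y e r = ht x y f r := by
      intro r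
      have c1 := ht_sub x y e r (x e.1)
      have c2 := ht_sub x y f r (x e.1)
      rw [hs] at c1
      linarith
    rcases lt_trichotomy (x e.2) (x f.2) with g | g | g
    · refine h3 f hf e.2 (by rw [← h]; exact le) g ?_
      rw [← hall, ht_right x y e le]
    · exact hne (Prod.ext h (hinj g))
    · refine h3 e he f.2 (by rw [h]; exact lf) g ?_
      rw [hall, ht_right x y f lf]
  · intro h
    have a1 := ht_sub x y e (x e.2) t
    have a2 := ht_sub x y f (x e.2) t
    have b1 := ht_right x y e le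
    have b2 := ht_right x y f lf
    rw [← h] at b2
    have hs : sl x y e = sl x y f := by
      have : sl x y e * (x e.2 - t) = sl x y f * (x e.2 - t) := by linarith
      exact mul_right_cancel₀ (by linarith) this
    have hall : ∀ r, ht x y e r = ht x y f r := by
      intro r
      have c1 := ht_sub x y e (x e.2) r
      have c2 := ht_sub x y f (x e.2) r
      rw [hs] at c1
      linarith
    rcases lt_trichotomy (x e.1) (x f.1) with g | g | g
    · refine h3 e he f.1 g (by rw [h]; exact lf) ?_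
      rw [hall, ht_left]
    · exact hne (Prod.ext (hinj g) h)
    · refine h3 f hf e.1 g (by rw [← h]; exact le) ?_
      rw [← hall, ht_left]
  · intro h
    rw [h] at t1
    linarith
  · intro h
    rw [h] at t2
    linarith

end

/-- Number of colourings that vanish on a given set. -/
lemma count_col (ι : Type) [Fintype ι] [DecidableEq ι] (k : ℕ) (z : Fin k) (S : Finset ι) :
    k ^ S.card * ((Finset.univ : Finset (ι → Fin k)).filter fun χ => ∀ i ∈ S, χ i = z).card =
      k ^ Fintype.card ι := by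
  have h : ((Finset.univ : Finset (ι → Fin k)).filter fun χ => ∀ i ∈ S, χ i = z) =
      Fintype.piFinset fun i => if i ∈ S then ({z} : Finset (Fin k)) else Finset.univ := by
    ext χ
    simp only [Finset.mem_filter, Finset.mem_univ, true_and, Fintype.mem_piFinset]
    constructor
    · intro h i
      split_ifs with hi
      · simp [h i hi]
      · simp
    · intro h i hi
      have := h i
      rw [if_pos hi] at this
      simpa using this
  rw [h, Fintype.card_piFinset]
  have h1 : k ^ S.card = ∏ i : ι, (if i ∈ S then k else 1) := by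
    rw [Finset.prod_ite_mem]; simp
  rw [h1, ← Finset.prod_mul_distrib]
  have h2 : ∀ i : ι, (if i ∈ S then k else 1) *
      (if i ∈ S then ({z} : Finset (Fin k)) else Finset.univ).card = k := by
    intro i
    split_ifs <;> simp
  rw [Finset.prod_congr rfl fun i _ => h2 i]
  simp

lemma dcount {α β : Type*} [Fintype β] (A : Finset α) (P : α → β → Prop)
    [∀ a b, Decidable (P a b)] :
    ∑ χ : β, (A.filter fun a => P a χ).card =
      ∑ a ∈ A, ((Finset.univ : Finset β).filter fun χ => P a χ).card := by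
  simp only [Finset.card_filter]
  rw [Finset.sum_comm]

theorem stmtA : StmtA := by
  classical
  intro ι _ x y hinj E h1 h3 k hk
  set z : Fin k := ⟨0, hk⟩
  set n := Fintype.card ι
  -- the bound for each colouring
  have hχ : ∀ χ : ι → Fin k, (E.filter fun e => χ e.1 = z ∧ χ e.2 = z).card ≤
      3 * (Finset.univ.filter fun v => χ v = z).card +
        ((XP x y E).filter fun p => (χ p.1.1 = z ∧ χ p.1.2 = z) ∧ (χ p.2.1 = z ∧ χ p.2.2 = z)).card
      := by
    intro χ
    have h := weak_bound (y := y) hinj (Finset.univ.filter fun v => χ v = z) _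
      (E.filter fun e => χ e.1 = z ∧ χ e.2 = z) rfl
      (fun e he => h1 e (Finset.mem_filter.1 he).1)
      (fun e he => by
        have := (Finset.mem_filter.1 he).2
        simp [this.1, this.2])
      (fun e he => h3 e (Finset.mem_filter.1 he).1)
    refine h.trans (Nat.add_le_add_left (Finset.card_le_card ?_) _)
    intro p hp
    simp only [XP, Finset.mem_filter, Finset.mem_product] at hp ⊢
    exact ⟨⟨⟨hp.1.1.1, hp.1.2.1⟩, hp.2⟩, hp.1.1.2, hp.1.2.2⟩
  have hsum := Finset.sum_le_sum fun χ (_ : χ ∈ (Finset.univ : Finset (ι → Fin k))) => hχ χ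
  rw [Finset.sum_add_distrib, ← Finset.mul_sum] at hsum
  have sE : k ^ 2 * ∑ χ : ι → Fin k, (E.filter fun e => χ e.1 = z ∧ χ e.2 = z).card =
      E.card * k ^ n := by
    rw [dcount E (fun e (χ : ι → Fin k) => χ e.1 = z ∧ χ e.2 = z), Finset.mul_sum]
    rw [Finset.sum_congr rfl (g := fun _ => k ^ n), Finset.sum_const, smul_eq_mul]
    intro e he
    have hne : e.1 ≠ e.2 := fun h => by
      have := h1 e he
      rw [h] at this
      exact lt_irrefl _ this
    have := count_col ι k z {e.1, e.2}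
    rw [Finset.card_pair hne] at this
    simpa using this
  have sV : k * ∑ χ : ι → Fin k, (Finset.univ.filter fun v => χ v = z).card =
      n * k ^ n := by
    rw [dcount Finset.univ (fun v (χ : ι → Fin k) => χ v = z), Finset.mul_sum]
    rw [Finset.sum_congr rfl (g := fun _ => k ^ n), Finset.sum_const, smul_eq_mul,
      Finset.card_univ]
    intro v _
    have := count_col ι k z {v}
    simpa using this
  have sX : k ^ 4 * ∑ χ : ι → Fin k, ((XP x y E).filter fun p =>
      (χ p.1.1 = z ∧ χ p.1.2 = z) ∧ (χ p.2.1 = z ∧ χ p.2.2 = z)).card =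
      (XP x y E).card * k ^ n := by
    rw [dcount (XP x y E) (fun p (χ : ι → Fin k) => (χ p.1.1 = z ∧ χ p.1.2 = z) ∧ (χ p.2.1 = z ∧ χ p.2.2 = z)),
      Finset.mul_sum]
    rw [Finset.sum_congr rfl (g := fun _ => k ^ n), Finset.sum_const, smul_eq_mul]
    intro p hp
    simp only [XP, Finset.mem_filter, Finset.mem_product] at hp
    obtain ⟨⟨he, hf⟩, hc⟩ := hp
    obtain ⟨d1, d2, d3, d4⟩ := crs_distinct hinj h1 h3 he hf hc
    have hne1 : p.1.1 ≠ p.1.2 := fun h => by
      have := h1 _ he
      rw [h] at this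
      exact lt_irrefl _ this
    have hne2 : p.2.1 ≠ p.2.2 := fun h => by
      have := h1 _ hf
      rw [h] at this
      exact lt_irrefl _ this
    have := count_col ι k z {p.1.1, p.1.2, p.2.1, p.2.2}
    rw [Finset.card_insert_of_notMem (by simp [hne1, d1, d3]),
      Finset.card_insert_of_notMem (by simp [d2, d4]), Finset.card_pair hne2] at this
    simpa [and_assoc] using this
  have hX : ((E ×ˢ E).filter fun p => Crs x y p.1 p.2).card = (XP x y E).card := rfl
  rw [hX]
  have hkn : 0 < k ^ n := pow_pos hk n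
  have hfin : (k ^ 2 * E.card) * k ^ n ≤
      (3 * k ^ 3 * n + (XP x y E).card) * k ^ n := by
    calc (k ^ 2 * E.card) * k ^ n = k ^ 2 * (E.card * k ^ n) := by ring
      _ = k ^ 4 * ∑ χ : ι → Fin k, (E.filter fun e => χ e.1 = z ∧ χ e.2 = z).card := by
          rw [← sE]; ring
      _ ≤ k ^ 4 * _ := Nat.mul_le_mul_left _ hsum
      _ = 3 * k ^ 3 * (k * ∑ χ : ι → Fin k, (Finset.univ.filter fun v => χ v = z).card) +
          k ^ 4 * ∑ χ : ι → Fin k, ((XP x y E).filter fun p =>
      (χ p.1.1 = z ∧ χ p.1.2 = z) ∧ (χ p.2.1 = z ∧ χ p.2.2 = z)).card := by ring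
      _ = _ := by rw [sV, sX]; ring
  exact Nat.le_of_mul_le_mul_right hfin hkn

end Pool.Agent.R613.LSA
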